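import Pool.Agent.R627.AC.Stm

/-!
AC3: the sign of `((1+z)/(1-z) - q z) (1-z)^2 / z` for a Caratheodory function `q`.
-/
namespace Pool.Agent.R627.AC

open Metric Set

lemma re_inv_one_sub_gt {w : ℂ} (hw : ‖w‖ ^ 2 < 1) : 1 / 2 < ((1 - w)⁻¹).re := by
  have h1 : w ≠ 1 := by
    rintro rfl; simp at hw
  have hne : (1 - w) ≠ 0 := sub_ne_zero.mpr (Ne.symm h1)
  have hpos : 0 < Complex.normSq (1 - w) := Complex.normSq_pos.mpr hne
  have hn : Complex.normSq w < 1 := by rw [Complex.normSq_eq_norm_sq]; exact hw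
  rw [Complex.inv_re, lt_div_iff₀ hpos]
  rw [Complex.normSq_apply] at hn ⊢
  simp only [Complex.sub_re, Complex.sub_im, Complex.one_re, Complex.one_im]
  nlinarith

lemma re_inv_one_sub_ge {w : ℂ} (hw : ‖w‖ ^ 2 ≤ 1) (h1 : w ≠ 1) : 1 / 2 ≤ ((1 - w)⁻¹).re := by
  have hne : (1 - w) ≠ 0 := sub_ne_zero.mpr (Ne.symm h1)
  have hpos : 0 < Complex.normSq (1 - w) := Complex.normSq_pos.mpr hne
  have hn : Complex.normSq w ≤ 1 := by rw [Complex.normSq_eq_norm_sq]; exact hw
  rw [Complex.inv_re, le_div_iff₀ hpos]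
  rw [Complex.normSq_apply] at hn ⊢
  simp only [Complex.sub_re, Complex.sub_im, Complex.one_re, Complex.one_im]
  nlinarith

theorem n1_pos : StN1 := by
  intro q hq hq0 hpos hd z hz hz0
  have hA : ∀ z ∈ ball (0:ℂ) 1, q z + 1 ≠ 0 := by
    intro z hz h
    have h1 := hpos z hz
    have h2 : (q z).re = -1 := by
      have : q z = -1 := eq_neg_of_add_eq_zero_left h
      rw [this]; simp
    linarith
  set ω : ℂ → ℂ := fun z => (q z - 1) / (q z + 1) with hω
  have hωd : DifferentiableOn ℂ ω (ball (0:ℂ) 1) :=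
    (hq.sub_const 1).div (hq.add_const 1) hA
  have hω0 : ω 0 = 0 := by simp [hω, hq0]
  have hωlt : ∀ z ∈ ball (0:ℂ) 1, ‖ω z‖ < 1 := by
    intro z hz
    have h1 := hpos z hz
    have h2 := hA z hz
    have h3 : 0 < ‖q z + 1‖ := norm_pos_iff.mpr h2
    simp only [hω, norm_div]
    rw [div_lt_one h3]
    apply lt_of_pow_lt_pow_left₀ 2 (norm_nonneg _)
    rw [← Complex.normSq_eq_norm_sq, ← Complex.normSq_eq_norm_sq, Complex.normSq_apply,
      Complex.normSq_apply]
    simp only [Complex.sub_re, Complex.sub_im, Complex.one_re, Complex.one_im, Complex.add_re,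
      Complex.add_im]
    nlinarith
  set b : ℂ → ℂ := dslope ω 0 with hb
  have h0mem : (0:ℂ) ∈ ball (0:ℂ) 1 := mem_ball_self one_pos
  have hnhds : ball (0:ℂ) 1 ∈ nhds (0:ℂ) := isOpen_ball.mem_nhds h0mem
  have hbd : DifferentiableOn ℂ b (ball (0:ℂ) 1) :=
    (Complex.differentiableOn_dslope hnhds).mpr hωd
  have hmaps : MapsTo ω (ball (0:ℂ) 1) (closedBall (ω 0) 1) := by
    intro w hw
    rw [hω0, mem_closedBall_zero_iff]
    exact (hωlt w hw).le
  have hb1 : ∀ z ∈ ball (0:ℂ) 1, ‖b z‖ ≤ 1 := by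
    intro z hz
    have := Complex.norm_dslope_le_div_of_mapsTo_ball hωd hmaps hz
    simpa using this
  have hq0' : DifferentiableAt ℂ q 0 := hq.differentiableAt hnhds
  have hb0 : b 0 = deriv q 0 / 2 := by
    have h1 : HasDerivAt ω ((deriv q 0 * (q 0 + 1) - (q 0 - 1) * deriv q 0) / (q 0 + 1) ^ 2) 0 :=
      (hq0'.hasDerivAt.sub_const 1).div (hq0'.hasDerivAt.add_const 1) (hA 0 h0mem)
    rw [hb, dslope_same, h1.deriv, hq0]
    ring
  have hb0ne : b 0 ≠ 1 := by
    rw [hb0]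
    intro h
    apply hd
    linear_combination 2 * h
  have hbne : ∀ z ∈ ball (0:ℂ) 1, b z ≠ 1 := by
    intro w hw hw1
    have hmax : IsMaxOn (norm ∘ b) (ball (0:ℂ) 1) w := by
      intro v hv
      show ‖b v‖ ≤ ‖b w‖
      rw [hw1, norm_one]
      exact hb1 v hv
    have := Complex.eqOn_of_isPreconnected_of_isMaxOn_norm
      (convex_ball (0:ℂ) 1).isPreconnected isOpen_ball hbd hw hmax
    have h2 := this h0mem
    simp only [Function.const_apply, hw1] at h2
    exact hb0ne h2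
  have hωb : ω z = z * b z := by
    rw [hb, dslope_of_ne _ hz0, slope_def_field, hω0, sub_zero, sub_zero]
    field_simp
  have hz1 : ‖z‖ < 1 := mem_ball_zero_iff.mp hz
  have hq1 := hA z hz
  have hzb : (1 : ℂ) - z * b z ≠ 0 := by
    rw [← hωb]
    intro h
    have : ω z = 1 := (sub_eq_zero.mp h).symm
    have h2 := hωlt z hz
    rw [this] at h2
    simp at h2
  have hz1' : (1:ℂ) - z ≠ 0 := by
    intro h
    have : z = 1 := (sub_eq_zero.mp h).symm
    rw [this] at hz1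
    simp at hz1
  have hb1' : (1:ℂ) - b z ≠ 0 := sub_ne_zero.mpr (Ne.symm (hbne z hz))
  have hqz : q z = (1 + z * b z) / (1 - z * b z) := by
    rw [eq_div_iff hzb, ← hωb]
    simp only [hω]
    field_simp
    ring
  have hkey : (((1 + z) / (1 - z)) - q z) * (1 - z) ^ 2 / z
      = (2:ℝ) * ((1 - z)⁻¹ + (1 - b z)⁻¹ - 1)⁻¹ := by
    have e1 : (1 - z)⁻¹ + (1 - b z)⁻¹ - 1 = (1 - z * b z) / ((1 - z) * (1 - b z)) := by
      field_simp
      ring
    rw [e1, hqz, inv_div]
    push_cast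
    field_simp
    ring
  rw [hkey, Complex.re_ofReal_mul, Complex.inv_re]
  have hz2 : ‖z‖ ^ 2 < 1 := by
    have := norm_nonneg z
    nlinarith
  have hb2 : ‖b z‖ ^ 2 ≤ 1 := by
    have := norm_nonneg (b z)
    have := hb1 z hz
    nlinarith
  have r1 := re_inv_one_sub_gt hz2
  have r2 := re_inv_one_sub_ge hb2 (hbne z hz)
  have hre : 0 < ((1 - z)⁻¹ + (1 - b z)⁻¹ - 1).re := by
    simp only [Complex.sub_re, Complex.add_re, Complex.one_re]
    linarith
  have hns : 0 < Complex.normSq ((1 - z)⁻¹ + (1 - b z)⁻¹ - 1) := by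
    apply Complex.normSq_pos.mpr
    intro h
    rw [h] at hre
    simp at hre
  positivity

end Pool.Agent.R627.AC
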